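import Pool.Agent.Helper12.GM.Lib

/-!
# AVOID: Green functions of walks that avoid a ball on the geodesic are superexponentially small
-/

open scoped ENNReal Topology
open Filter

namespace Pool.Agent.Helper12.GM

theorem avoid_zero (hL : ST_LOGL) {Γ : Type} [Group Γ] (Q : Geo Γ) (μ : PMF Γ) (K : ℝ)
    (hW : Wk Q μ K) (w v p : Γ) (C₂ r : ℝ) (hgp : Q.gp w v p ≤ C₂) (k n : ℕ) (hn : 1 ≤ n)
    (hnk : n ≤ 2 ^ k) (hk : (k : ℝ) * Q.C ≤ r - C₂ - K) :
    pw μ {x | r < Q.d p x} n w v = 0 := by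
  by_contra h
  obtain ⟨x, hx0, hxn, hxΩ, hxμ⟩ := exists_path μ h
  obtain ⟨i, hi, hgi⟩ := hL Q p k n x hn hnk
  rw [hx0, hxn] at hgi
  have h1 : r < Q.d p (x i) := hxΩ i hi
  have h2 : Q.d (x i) (x (i + 1)) ≤ K := hW.step _ (hxμ i hi)
  have h3 : Q.d p (x i) ≤ Q.d p (x (i + 1)) + Q.d (x (i + 1)) (x i) := Q.d_tri _ _ _
  rw [Q.d_comm (x (i + 1)) (x i)] at h3
  unfold Geo.gp at hgi hgp
  linarith

theorem st_AVOID (hL : ST_LOGL) : ST_AVOID := by
  intro Γ _ Q μ K hW w v p C₂ r hgp hr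
  have hK := hW.one_le
  have hC := Q.one_le_C
  have hC0 : 0 < Q.C := by linarith
  have hK0 : 0 < K := by linarith
  set y : ℝ := (r - C₂ - K) / Q.C with hy
  by_cases hy0 : y < 0
  · refine (Gr_le_G0 μ _ w v).trans (hW.G0_le.trans (ENNReal.ofReal_le_ofReal ?_))
    have h1 : (2 : ℝ) ^ (y - 1) ≤ 1 / 2 := by
      have : (2 : ℝ) ^ (y - 1) ≤ (2 : ℝ) ^ (-1 : ℝ) :=
        Real.rpow_le_rpow_of_exponent_le (by norm_num) (by linarith)
      refine this.trans ?_
      rw [Real.rpow_neg_one]; norm_num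
    have h2 : -(2 : ℝ) ^ (y - 1) / K ≥ -(1 / 2) := by
      rw [ge_iff_le, le_div_iff₀ hK0]
      have : (0 : ℝ) ≤ (2 : ℝ) ^ (y - 1) := by positivity
      nlinarith
    have h3 : (1 / 2 : ℝ) ≤ Real.exp (-(2 : ℝ) ^ (y - 1) / K) := by
      have := Real.add_one_le_exp (-(2 : ℝ) ^ (y - 1) / K)
      linarith
    nlinarith
  · push Not at hy0
    set k : ℕ := ⌊y⌋₊ with hkdef
    have hky : (k : ℝ) ≤ y := Nat.floor_le hy0
    have hyk : y < k + 1 := Nat.lt_floor_add_one y
    have hkC : (k : ℝ) * Q.C ≤ r - C₂ - K := by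
      have := mul_le_mul_of_nonneg_right hky hC0.le
      rwa [hy, div_mul_cancel₀ _ hC0.ne'] at this
    have hzero : ∀ n ∈ Finset.range (2 ^ k + 1), pw μ {x | r < Q.d p x} n w v = 0 := by
      intro n hn
      rw [Finset.mem_range] at hn
      rcases Nat.eq_zero_or_pos n with h0 | h0
      · subst h0
        apply pw_zero_ne
        rintro rfl
        unfold Geo.gp at hgp
        rw [Q.d_self] at hgp
        have : (0 : ℝ) ≤ (k : ℝ) * Q.C := by positivity
        linarith
      · exact avoid_zero hL Q μ K hW w v p C₂ r hgp k n h0 (by omega) hkC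
    have hsum : Gr μ {x | r < Q.d p x} w v =
        ∑' n, pw μ {x | r < Q.d p x} (n + (2 ^ k + 1)) w v := by
      have e := Summable.sum_add_tsum_nat_add' (k := 2 ^ k + 1)
        (f := fun n => pw μ {x | r < Q.d p x} n w v) ENNReal.summable
      rw [Finset.sum_eq_zero hzero, zero_add] at e
      exact e.symm
    obtain ⟨s1, s2⟩ := exp_tail hK
    rw [hsum]
    calc ∑' n, pw μ {x | r < Q.d p x} (n + (2 ^ k + 1)) w v
        ≤ ∑' n : ℕ, ENNReal.ofReal (Real.exp (-(2 : ℝ) ^ (y - 1) / K) *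
            Real.exp (-(n : ℝ) / K)) := by
          refine ENNReal.tsum_le_tsum fun n => ?_
          refine (pw_mono μ (Set.subset_univ _) _ _ _).trans ((hW.gap _ _ _).trans ?_)
          refine ENNReal.ofReal_le_ofReal ?_
          rw [← Real.exp_add, Real.exp_le_exp, ← add_div]
          rw [div_le_div_iff_of_pos_right hK0]
          push_cast
          have h4 : (2 : ℝ) ^ (y - 1) ≤ (2 : ℝ) ^ k := by
            rw [← Real.rpow_natCast]
            exact Real.rpow_le_rpow_of_exponent_le (by norm_num) (by linarith)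
          linarith
      _ = ENNReal.ofReal (∑' n : ℕ, Real.exp (-(2 : ℝ) ^ (y - 1) / K) *
            Real.exp (-(n : ℝ) / K)) :=
          (ENNReal.ofReal_tsum_of_nonneg (fun n => by positivity) (s1.mul_left _)).symm
      _ ≤ _ := by
          refine ENNReal.ofReal_le_ofReal ?_
          rw [tsum_mul_left]
          have h5 : 0 < Real.exp (-(2 : ℝ) ^ (y - 1) / K) := Real.exp_pos _
          nlinarith
end Pool.Agent.Helper12.GM
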